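import Mathlib
import Pool.Agent.H961R3.CJ

/-!
# Small values of integer polynomials of exact degree, in a general normed field

The library file `Pool.Agent.H961R3.CK` (real numbers, exponent `n`) with an arbitrary uniform
exponent `v` and with values in an arbitrary normed field in which the norm of a nonzero integer
`k` is at least `|k| ^ (-κ)`.
-/

open Polynomial

namespace Pool.Agent.Y882.DE

open Pool.Agent.H961R3.C

variable {K : Type*} [NormedField K]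

/-- for all large `X` there is a nonzero integer polynomial of degree at most `n` with coefficients
at most `X` in absolute value and with value at most `X ^ (-v)` at `ζ`. -/
def Uni (n : ℕ) (ζ : K) (v : ℝ) : Prop :=
  ∃ X₀ : ℝ, ∀ X : ℝ, X₀ ≤ X → ∃ P : ℤ[X], P ≠ 0 ∧ P.natDegree ≤ n ∧
    (∀ i, |(P.coeff i : ℝ)| ≤ X) ∧ ‖aeval ζ P‖ ≤ X ^ (-v)

lemma norm_int_le (k : ℤ) : ‖(k : K)‖ ≤ |(k : ℝ)| := by
  have h1 : ∀ m : ℕ, ‖(m : K)‖ ≤ m := by
    intro m
    have := Nat.norm_cast_le (α := K) m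
    simpa using this
  rcases Int.natAbs_eq k with h | h
  · rw [h]
    have := h1 k.natAbs
    push_cast
    simpa using this
  · rw [h]
    have := h1 k.natAbs
    push_cast
    simpa using this

lemma aeval_ne (ζ : K) (hζ : Transcendental ℤ ζ) (f : ℤ[X]) (hf : f ≠ 0) : aeval ζ f ≠ 0 :=
  fun h => hζ ⟨f, hf, h⟩

/-- Existence of irreducible polynomials of degree at most `n` with small values. -/
theorem exists_R (n : ℕ) (ζ : K) (hζ : Transcendental ℤ ζ) (κ : ℝ)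
    (hK : ∀ k : ℤ, k ≠ 0 → 1 ≤ ‖(k : K)‖ * |(k : ℝ)| ^ κ) (v e : ℝ) (he0 : 0 < e) (hev : e < v)
    (hκe : κ ≤ e) (hU : Uni n ζ v) (K0 : ℝ) :
    ∃ R : ℤ[X], Irreducible R ∧ 1 ≤ R.natDegree ∧ R.natDegree ≤ n ∧ K0 ≤ Mm R ∧
      ‖aeval ζ R‖ ≤ (Mm R) ^ (-e) := by
  by_contra hcon
  push Not at hcon
  -- the finite set
  set K' : NNReal := ⟨max K0 1, le_trans zero_le_one (le_max_right _ _)⟩ with hK'
  have hfin : ({f : ℤ[X] | f.natDegree ≤ n ∧ Mm f ≤ K' ∧ f ≠ 0}).Finite :=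
    (finite_mahlerMeasure_le n K').subset (fun f hf => ⟨hf.1, hf.2.1⟩)
  obtain ⟨c, hc0, hc1, hc⟩ := finite_lower _ hfin (fun f => ‖aeval ζ f‖)
    (fun f hf => norm_pos_iff.2 (aeval_ne ζ hζ f hf.2.2))
  set μ : ℤ[X] → ℝ := fun f => ‖aeval ζ f‖ * (Mm f) ^ e with hμ
  have hμmul : ∀ f g, μ (f * g) = μ f * μ g := by
    intro f g
    simp only [hμ]
    rw [map_mul, norm_mul, Mm_mul, Real.mul_rpow (Mm_nonneg f) (Mm_nonneg g)]
    ring
  have hMe : ∀ f : ℤ[X], f ≠ 0 → 1 ≤ (Mm f) ^ e := fun f hf =>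
    Real.one_le_rpow (one_le_Mm f hf) he0.le
  have hconst : ∀ f : ℤ[X], f ≠ 0 → f.natDegree = 0 → 1 ≤ μ f := by
    intro f hf hdeg
    rw [natDegree_eq_zero] at hdeg
    obtain ⟨k, rfl⟩ := hdeg
    have hk : k ≠ 0 := by rintro rfl; simp at hf
    simp only [hμ]
    have h1 : aeval ζ (C k : ℤ[X]) = (k : K) := by
      rw [aeval_C]; simp
    rw [h1]
    have hk1 : (1 : ℝ) ≤ |(k : ℝ)| := by exact_mod_cast Int.one_le_abs hk
    have h2 : |(k : ℝ)| ≤ Mm (C k : ℤ[X]) := by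
      have := lc_le_Mm (C k : ℤ[X])
      rwa [leadingCoeff_C] at this
    have h3 : |(k : ℝ)| ^ κ ≤ (Mm (C k : ℤ[X])) ^ e := by
      calc |(k : ℝ)| ^ κ ≤ |(k : ℝ)| ^ e := Real.rpow_le_rpow_of_exponent_le hk1 hκe
        _ ≤ _ := Real.rpow_le_rpow (by linarith) h2 he0.le
    exact (hK k hk).trans (mul_le_mul_of_nonneg_left h3 (norm_nonneg _))
  have hirr : ∀ f : ℤ[X], Irreducible f → 1 ≤ f.natDegree → f.natDegree ≤ n → c ≤ μ f := by
    intro f hf hd hdn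
    by_cases hK : K0 ≤ Mm f
    · have h1 := hcon f hf hd hdn hK
      refine hc1.trans ?_
      simp only [hμ]
      have h2 : 0 < Mm f := lt_of_lt_of_le one_pos (one_le_Mm f hf.ne_zero)
      have h3 : (Mm f) ^ (-e) * (Mm f) ^ e = 1 := by
        rw [← Real.rpow_add h2]; simp
      calc (1 : ℝ) = (Mm f) ^ (-e) * (Mm f) ^ e := h3.symm
        _ ≤ ‖aeval ζ f‖ * (Mm f) ^ e := by
          apply mul_le_mul_of_nonneg_right h1.le (by positivity)
    · push Not at hK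
      have h1 : c ≤ ‖aeval ζ f‖ := by
        apply hc
        refine ⟨hdn, ?_, hf.ne_zero⟩
        change Mm f ≤ max K0 1
        exact hK.le.trans (le_max_left _ _)
      simp only [hμ]
      calc c = c * 1 := by ring
        _ ≤ _ := mul_le_mul h1 (hMe f hf.ne_zero) zero_le_one (norm_nonneg _)
  have hall : ∀ f : ℤ[X], f ≠ 0 → f.natDegree ≤ n → c ^ f.natDegree ≤ μ f := by
    intro f
    induction f using WfDvdMonoid.induction_on_irreducible with
    | zero => intro h; exact absurd rfl h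
    | unit u hu =>
      intro h0 _
      have hd : u.natDegree = 0 := natDegree_eq_zero_of_isUnit hu
      rw [hd, pow_zero]
      exact hconst u h0 hd
    | mul a i ha hi ih =>
      intro h0 hdeg
      rw [natDegree_mul hi.ne_zero ha] at hdeg ⊢
      have h1 := ih ha (by omega)
      rw [hμmul, pow_add]
      have hμi : c ^ i.natDegree ≤ μ i := by
        by_cases hd : i.natDegree = 0
        · rw [hd, pow_zero]; exact hconst i hi.ne_zero hd
        · have h2 := hirr i hi (by omega) (by omega)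
          refine le_trans ?_ h2
          calc c ^ i.natDegree ≤ c ^ 1 := pow_le_pow_of_le_one hc0.le hc1 (by omega)
            _ = c := pow_one c
      have hμi0 : 0 ≤ μ i := le_trans (by positivity) hμi
      exact mul_le_mul hμi h1 (by positivity) hμi0
  obtain ⟨X₀, hD⟩ := hU
  -- choose `X` large
  have hε : 0 < v - e := by linarith
  have hlim : Filter.Tendsto (fun X : ℝ => X ^ (v - e)) Filter.atTop Filter.atTop :=
    tendsto_rpow_atTop hε
  obtain ⟨X, hX1, hX2, hX⟩ := ((Filter.eventually_ge_atTop 1).and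
    ((Filter.eventually_ge_atTop X₀).and
    (hlim.eventually_gt_atTop (((n : ℝ) + 1) ^ e / c ^ n)))).exists
  obtain ⟨P, hP0, hPdeg, hPc, hPv⟩ := hD X hX2
  have hXpos : (0 : ℝ) < X := by linarith
  have h1 := hall P hP0 hPdeg
  have h2 : c ^ n ≤ μ P := le_trans (pow_le_pow_of_le_one hc0.le hc1 hPdeg) h1
  have h3 : Mm P ≤ (n + 1) * X := Mm_le P n hPdeg X hPc
  have h4 : (Mm P) ^ e ≤ ((n : ℝ) + 1) ^ e * X ^ e := by
    rw [← Real.mul_rpow (by positivity) (by positivity)]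
    exact Real.rpow_le_rpow (Mm_nonneg P) h3 he0.le
  have h5 : μ P ≤ X ^ (-v) * (((n : ℝ) + 1) ^ e * X ^ e) :=
    mul_le_mul hPv h4 (Real.rpow_nonneg (Mm_nonneg P) _) (by positivity)
  have h6 : X ^ (-v) * (((n : ℝ) + 1) ^ e * X ^ e) = ((n : ℝ) + 1) ^ e / X ^ (v - e) := by
    have e1 : X ^ (-v) * X ^ e = (X ^ (v - e))⁻¹ := by
      rw [← Real.rpow_add hXpos, ← Real.rpow_neg hXpos.le]
      congr 1; ring
    rw [div_eq_mul_inv, ← e1]; ring
  rw [h6] at h5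
  have h8 := h2.trans h5
  have h9 : 0 < X ^ (v - e) := Real.rpow_pos_of_pos hXpos _
  rw [div_lt_iff₀ (by positivity)] at hX
  rw [le_div_iff₀ h9] at h8
  linarith

/-- A small polynomial coprime to `R`. -/
lemma exists_P (n : ℕ) (ζ : K) (v : ℝ) (hv : 0 ≤ v) (hU : Uni n ζ v) :
    ∃ Cp K3 : ℝ, 1 ≤ Cp ∧ ∀ R : ℤ[X], Irreducible R →
    1 ≤ R.natDegree → R.natDegree ≤ n → K3 ≤ Mm R →
    ∃ P : ℤ[X], P ≠ 0 ∧ P.natDegree ≤ n ∧ (∀ i, |(P.coeff i : ℝ)| ≤ Mm R) ∧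
      ‖aeval ζ P‖ ≤ Cp * (Mm R) ^ (-v) ∧
      IsCoprime (R.map (Int.castRingHom ℚ)) (P.map (Int.castRingHom ℚ)) := by
  obtain ⟨X₀, hD⟩ := hU
  have hn0 : (0 : ℝ) ≤ n := Nat.cast_nonneg n
  refine ⟨(2 * ((n : ℝ) + 1)) ^ v, max 1 (X₀ * (2 * ((n : ℝ) + 1))),
    Real.one_le_rpow (by linarith) hv, ?_⟩
  intro R hR hRd hRdn hH
  set H := Mm R with hHdef
  have hpos : (0 : ℝ) < 2 * ((n : ℝ) + 1) := by linarith
  have hH1 : 1 ≤ H := (le_max_left _ _).trans hH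
  have hHX : X₀ * (2 * ((n : ℝ) + 1)) ≤ H := (le_max_right _ _).trans hH
  have hHpos : 0 < H := by linarith
  set Y : ℝ := H / (2 * ((n : ℝ) + 1)) with hY
  have hYX : X₀ ≤ Y := by rw [hY, le_div_iff₀ hpos]; exact hHX
  obtain ⟨P, hP0, hPd, hPc, hPv⟩ := hD Y hYX
  have hYH : Y ≤ H := by
    rw [hY, div_le_iff₀ hpos]; nlinarith
  have hMP : Mm P < H := by
    have h2 := Mm_le P n hPd Y hPc
    have h3 : ((n : ℝ) + 1) * Y = H / 2 := by
      rw [hY]; field_simp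
    linarith
  have hndvd : ¬ R ∣ P := by
    rintro ⟨Q, hQ⟩
    have hQ0 : Q ≠ 0 := by rintro rfl; rw [mul_zero] at hQ; exact hP0 hQ
    have h2 := Mm_mul R Q
    rw [← hQ] at h2
    have h3 := one_le_Mm Q hQ0
    nlinarith
  refine ⟨P, hP0, hPd, fun i => (hPc i).trans hYH, ?_, ?_⟩
  · refine hPv.trans (le_of_eq ?_)
    rw [hY, Real.div_rpow hHpos.le hpos.le, Real.rpow_neg hpos.le v, div_inv_eq_mul]
    ring
  · have hirr := irred_rat R hR hRd
    rw [hirr.coprime_iff_not_dvd]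
    intro h2
    apply hndvd
    have hprim : R.IsPrimitive := hR.isPrimitive (by omega)
    exact (IsPrimitive.dvd_iff_fraction_map_dvd_fraction_map ℚ hprim).2 h2

lemma aeval_VV (n : ℕ) (hn : 1 ≤ n) (ζ : K) (U : Finset ℤ) (hU : U ⊆ Finset.Ico 0 (3 * n : ℤ)) :
    ‖aeval ζ (VV U)‖ ≤ (‖ζ‖ + 3 * n) ^ U.card := by
  unfold VV
  rw [map_prod, norm_prod]
  rw [← Finset.prod_const]
  apply Finset.prod_le_prod (fun _ _ => norm_nonneg _)
  intro u hu
  have h1 := Finset.mem_Ico.1 (hU hu)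
  rw [map_sub, aeval_X, aeval_C]
  have h2 : ‖(algebraMap ℤ K) u‖ ≤ 3 * n := by
    have e1 : (algebraMap ℤ K) u = (u : K) := by simp
    rw [e1]
    refine (norm_int_le u).trans ?_
    rw [abs_of_nonneg (by exact_mod_cast h1.1)]
    have : (u : ℝ) < 3 * n := by exact_mod_cast h1.2
    exact this.le
  exact (norm_sub_le _ _).trans (by linarith)

/-- value bound -/
lemma member_value (n : ℕ) (hn : 1 ≤ n) (ζ : K) (R P : ℤ[X]) (v1 v2 : ℝ)
    (hR : ‖aeval ζ R‖ ≤ v1) (hP : ‖aeval ζ P‖ ≤ v2)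
    (U : Finset ℤ) (hU : U ⊆ Finset.Ico 0 (3 * n : ℤ)) (hUc : U.card = n - R.natDegree)
    (M : ℕ) (p : ℕ) (s : ℤ) (hs : s ∈ Finset.Icc (1 : ℤ) M) :
    ‖aeval ζ (R * VV U + C ((p : ℤ) * s) * P)‖ ≤ (‖ζ‖ + 3 * n) ^ n * v1 + p * M * v2 := by
  have hnR : (1 : ℝ) ≤ n := by exact_mod_cast hn
  have hs' := Finset.mem_Icc.1 hs
  have hv1 : 0 ≤ v1 := (norm_nonneg _).trans hR
  have hv2 : 0 ≤ v2 := (norm_nonneg _).trans hP
  rw [map_add, map_mul, map_mul, aeval_C]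
  have h1 : ‖aeval ζ (VV U)‖ ≤ (‖ζ‖ + 3 * n) ^ n := by
    refine (aeval_VV n hn ζ U hU).trans ?_
    apply pow_le_pow_right₀
    · have := norm_nonneg ζ; linarith
    · rw [hUc]; omega
  have h2 : ‖(algebraMap ℤ K) ((p : ℤ) * s)‖ ≤ p * M := by
    have e0 : (algebraMap ℤ K) ((p : ℤ) * s) = (((p : ℤ) * s : ℤ) : K) := by simp
    rw [e0]
    refine (norm_int_le _).trans ?_
    push_cast
    rw [abs_mul]
    have e1 : |(s : ℝ)| ≤ M := by
      rw [abs_of_nonneg (by exact_mod_cast (by omega : (0 : ℤ) ≤ s))]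
      exact_mod_cast hs'.2
    have e2 : |(p : ℝ)| = p := abs_of_nonneg (Nat.cast_nonneg _)
    rw [e2]
    exact mul_le_mul_of_nonneg_left e1 (Nat.cast_nonneg _)
  refine (norm_add_le _ _).trans ?_
  rw [norm_mul, norm_mul]
  have h3 : ‖aeval ζ R‖ * ‖aeval ζ (VV U)‖ ≤ (‖ζ‖ + 3 * n) ^ n * v1 := by
    rw [mul_comm ((‖ζ‖ + 3 * n) ^ n)]
    exact mul_le_mul hR h1 (norm_nonneg _) hv1
  have h4 : ‖(algebraMap ℤ K) ((p : ℤ) * s)‖ * ‖aeval ζ P‖ ≤ p * M * v2 :=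
    mul_le_mul h2 hP (norm_nonneg _) (by positivity)
  linarith

end Pool.Agent.Y882.DE
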