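import Mathlib
import Pool.Agent.Y882.DE.Gen

open Polynomial

namespace Pool.Agent.Y882.DE

open Pool.Agent.H961R3.C (Mm Mm_nonneg Kc prime_step exists_U VV VV_monic VV_natDegree sep_RV cop_RV
  family_facts factor_bound member_coeff exists_irred_member)

variable {K : Type*} [NormedField K]

theorem step (n : ℕ) (hn : 1 ≤ n) (ζ : K) (hζ : Transcendental ℤ ζ) (κ : ℝ)
    (hK : ∀ k : ℤ, k ≠ 0 → 1 ≤ ‖(k : K)‖ * |(k : ℝ)| ^ κ) (v : ℝ) (hU : Uni n ζ v)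
    (ε : ℝ) (hε : 0 < ε) (hεv : 0 < v - ε) (hκ : κ ≤ v - ε) :
    ∃ C0 : ℝ, 1 ≤ C0 ∧ ∀ K : ℝ, ∃ H : ℝ, K ≤ H ∧ 1 ≤ H ∧ ∃ F : ℤ[X], F.natDegree = n ∧
      (∀ A A' : ℤ[X], A * A' = F → A.natDegree = 0 ∨ A'.natDegree = 0) ∧
      (∀ i, |(F.coeff i : ℝ)| ≤ C0 * H ^ (1 + ε)) ∧
      ‖aeval ζ F‖ ≤ C0 * H ^ (-(v - ε)) := by
  have hnR : (1 : ℝ) ≤ n := by exact_mod_cast hn
  -- parameters
  obtain ⟨m, hm⟩ : ∃ m : ℕ, m = ⌈2 / ε⌉₊ + 1 := ⟨_, rfl⟩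
  have hmε : 2 ≤ ε * ((m - 1 : ℕ) : ℝ) := by
    have h1 : 2 / ε ≤ ⌈2 / ε⌉₊ := Nat.le_ceil _
    have h2 : m - 1 = ⌈2 / ε⌉₊ := by omega
    rw [h2]
    rw [div_le_iff₀ hε] at h1
    linarith
  have hm1 : 1 ≤ m := by omega
  obtain ⟨k0, hk0⟩ : ∃ k0 : ℕ, k0 = ⌈(2 * (n : ℝ) + 2) / ε⌉₊ := ⟨_, rfl⟩
  have hk0ε : 2 * (n : ℝ) + 2 ≤ ε * k0 := by
    have h1 : (2 * (n : ℝ) + 2) / ε ≤ ⌈(2 * (n : ℝ) + 2) / ε⌉₊ := Nat.le_ceil _
    rw [← hk0, div_le_iff₀ hε] at h1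
    linarith
  obtain ⟨M, hM⟩ : ∃ M : ℕ, M = 2 ^ n * (2 * m + 1) := ⟨_, rfl⟩
  obtain ⟨Ca, hCa⟩ : ∃ Ca : ℝ, Ca = 2 ^ n * (3 * n) ^ n + M := ⟨_, rfl⟩
  have hCa1 : 1 ≤ Ca := by
    have h1 : (1 : ℝ) ≤ 2 ^ n := one_le_pow₀ (by norm_num)
    have h2 : (1 : ℝ) ≤ (3 * n : ℝ) ^ n := one_le_pow₀ (by linarith)
    have h3 : (0 : ℝ) ≤ M := Nat.cast_nonneg _
    nlinarith
  obtain ⟨Kr, hKr⟩ : ∃ Kr : ℝ, Kr = ((Kc (M : ℤ) : ℤ) : ℝ) := ⟨_, rfl⟩
  obtain ⟨Cp, K3, hCp1, hCp⟩ := exists_P n ζ v (by linarith) hU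
  obtain ⟨K1, hK1⟩ := prime_step n hn ε hε k0 hk0ε
  obtain ⟨K2, hK2⟩ : ∃ K2 : ℝ, ∀ H : ℝ, K2 ≤ H → 3 * (n : ℝ) + 1 ≤ H ^ ε := by
    have := (tendsto_rpow_atTop hε).eventually_ge_atTop (3 * (n : ℝ) + 1)
    exact Filter.eventually_atTop.1 this
  obtain ⟨Q, hQ⟩ : ∃ Q : ℝ, Q = Kr * (2 ^ n * ((n + 1) * Ca)) := ⟨_, rfl⟩
  have hζ0 := norm_nonneg ζ
  refine ⟨Ca * 2 ^ (k0 + 1) + (‖ζ‖ + 3 * n) ^ n + 2 ^ (k0 + 1) * M * Cp, ?_, ?_⟩
  · have h1 : (1 : ℝ) ≤ 2 ^ (k0 + 1) := one_le_pow₀ (by norm_num)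
    have h2 : (0 : ℝ) ≤ (‖ζ‖ + 3 * n) ^ n := by positivity
    have h3 : (0 : ℝ) ≤ 2 ^ (k0 + 1) * M * Cp := by positivity
    nlinarith
  intro K
  -- the irreducible polynomial
  obtain ⟨R, hR, hRd, hRdn, hRK, hRv⟩ := exists_R n ζ hζ κ hK v (v - ε) hεv (by linarith) hκ hU
    (max (max (max K K1) (max K2 (max K3 1))) (Q + 1))
  obtain ⟨H, hH⟩ : ∃ H : ℝ, H = Mm R := ⟨_, rfl⟩
  rw [← hH] at hRK hRv
  have hHK : K ≤ H := le_trans (le_max_left _ _) (le_trans (le_max_left _ _)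
    (le_trans (le_max_left _ _) hRK))
  have hHK1 : K1 ≤ H := le_trans (le_max_right _ _) (le_trans (le_max_left _ _)
    (le_trans (le_max_left _ _) hRK))
  have hHK2 : K2 ≤ H := le_trans (le_max_left _ _) (le_trans (le_max_right _ _)
    (le_trans (le_max_left _ _) hRK))
  have hH31 : max K3 1 ≤ H := le_trans (le_max_right _ _) (le_trans (le_max_right _ _)
    (le_trans (le_max_left _ _) hRK))
  have hHK3 : K3 ≤ H := (le_max_left _ _).trans hH31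
  have hHQ : Q + 1 ≤ H := le_trans (le_max_right _ _) hRK
  have hH1 : 1 ≤ H := (le_max_right _ _).trans hH31
  have hHpos : 0 < H := by linarith
  obtain ⟨P, hP0, hPd, hPc, hPv, hRP⟩ := hCp R hR hRd hRdn (hH ▸ hHK3)
  rw [← hH] at hPc hPv
  obtain ⟨p, hp, hpgt, hple, hplc, hpsep⟩ := hK1 R hR hRd hRdn (hH ▸ hHK1) (hH ▸ hH1)
  rw [← hH] at hpgt hple
  have hpR1 : (1 : ℝ) ≤ p := by exact_mod_cast hp.one_lt.le
  have hp3n : 3 * n < p := by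
    have h1 := hK2 H hHK2
    have : (3 * (n : ℝ)) < p := by linarith
    exact_mod_cast this
  have hfact : Fact p.Prime := ⟨hp⟩
  have hRb0 : R.map (Int.castRingHom (ZMod p)) ≠ 0 := by
    intro h0
    apply hplc
    rw [← ZMod.intCast_zmod_eq_zero_iff_dvd]
    have := congrArg (fun t => t.coeff R.natDegree) h0
    simpa using this
  obtain ⟨U, hU, hUc, hUev⟩ := exists_U n (n - R.natDegree) p (by omega) hp hp3n R P hRb0 hRdn
    hP0 hPd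
  have hR1deg : (R * VV U).natDegree = n := by
    rw [natDegree_mul hR.ne_zero (VV_monic U).ne_zero, VV_natDegree, hUc]; omega
  have hR1lc : (R * VV U).leadingCoeff = R.leadingCoeff := by
    rw [leadingCoeff_mul, (VV_monic U).leadingCoeff, mul_one]
  have hR1lc' : ¬ ((p : ℤ) ∣ (R * VV U).leadingCoeff) := by rw [hR1lc]; exact hplc
  have hsep := sep_RV n p hp hp3n R hpsep U hU (fun u hu => (hUev u hu).2)
  have hcop := cop_RV R P hRP U (fun u hu => (hUev u hu).1)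
  -- the bound for the factors
  obtain ⟨Bd, hBd⟩ : ∃ Bd : ℤ, Bd = ⌊(2 : ℝ) ^ n * ((n + 1) * (Ca * p * H))⌋ := ⟨_, rfl⟩
  have hfac : ∀ s ∈ Finset.Icc (1 : ℤ) (2 ^ n * (2 * m + 1) : ℕ), ∀ A A' : ℤ[X],
      A * A' = R * VV U + C (p * s) * P → ∀ i, |A'.leadingCoeff * A.coeff i| ≤ Bd := by
    intro s hs A A' hAA' i
    rw [← hM] at hs
    have hFF := family_facts p n (R * VV U) P hR1deg hPd hR1lc' s
    have hF0 : R * VV U + C ((p : ℤ) * s) * P ≠ 0 := by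
      intro h0
      apply hFF.2.2
      rw [h0, leadingCoeff_zero]
      exact dvd_zero _
    have h1 := factor_bound n (R * VV U + C ((p : ℤ) * s) * P) A A' hFF.1 hF0 hAA' (Ca * p * H)
      (fun i => by
        rw [hCa]
        exact member_coeff n hn R P hRdn H hH1 hH.symm hPc U hU hUc M p hp.one_lt.le s hs i) i
    rw [hBd, Int.le_floor]
    push_cast at h1 ⊢
    exact h1
  have hsmall : Kc ((2 ^ n * (2 * m + 1) : ℕ) : ℤ) * Bd < (p : ℤ) ^ m := by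
    rw [← hM]
    have hKc0 : 0 ≤ Kc (M : ℤ) := by
      unfold Kc
      apply Finset.sum_nonneg; intro V _
      apply Finset.sum_nonneg; intro s _
      have := Finset.sum_nonneg (fun v (_ : v ∈ V) =>
        abs_nonneg ((Pool.Agent.H961R3.C.LL V v).eval s))
      positivity
    have hKr0 : 0 ≤ Kr := by rw [hKr]; exact_mod_cast hKc0
    have h1 : ((Kc (M : ℤ) * Bd : ℤ) : ℝ) ≤ Q * p * H := by
      push_cast
      rw [← hKr, hQ]
      have h2 : (Bd : ℝ) ≤ 2 ^ n * ((n + 1) * (Ca * p * H)) := by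
        rw [hBd]; exact Int.floor_le _
      calc Kr * (Bd : ℝ) ≤ Kr * (2 ^ n * ((n + 1) * (Ca * p * H))) :=
            mul_le_mul_of_nonneg_left h2 hKr0
        _ = _ := by ring
    have h3 : Q * p * H < (p : ℝ) ^ m := by
      have h4 : (p : ℝ) ^ m = p * (p : ℝ) ^ (m - 1) := by
        rw [← pow_succ']; congr 1; omega
      have h5 : H ^ 2 ≤ (p : ℝ) ^ (m - 1) := by
        have e1 : (H ^ ε) ^ (m - 1) ≤ (p : ℝ) ^ (m - 1) :=
          pow_le_pow_left₀ (Real.rpow_nonneg hHpos.le _) hpgt.le _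
        refine le_trans ?_ e1
        rw [← Real.rpow_natCast (H ^ ε) (m - 1), ← Real.rpow_mul hHpos.le,
          ← Real.rpow_natCast H 2]
        apply Real.rpow_le_rpow_of_exponent_le hH1
        push_cast; linarith
      have h6 : Q * H < H ^ 2 := by
        rw [sq]
        exact mul_lt_mul_of_pos_right (by linarith) hHpos
      rw [h4]
      calc Q * p * H = p * (Q * H) := by ring
        _ < p * (p : ℝ) ^ (m - 1) := mul_lt_mul_of_pos_left (lt_of_lt_of_le h6 h5) (by linarith)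
    have h7 : ((Kc (M : ℤ) * Bd : ℤ) : ℝ) < (((p : ℤ) ^ m : ℤ) : ℝ) := by
      push_cast at h1 ⊢; linarith
    exact_mod_cast h7
  obtain ⟨s, hs, hirr⟩ := exists_irred_member p m n Bd hp hm1 hn (R * VV U) P hR1deg hPd hcop
    hR1lc' hsep hfac hsmall
  rw [← hM] at hs
  have hFF := family_facts p n (R * VV U) P hR1deg hPd hR1lc' s
  refine ⟨H, hHK, hH1, R * VV U + C ((p : ℤ) * s) * P, hFF.1, hirr, ?_, ?_⟩
  · intro i
    have h1 := member_coeff n hn R P hRdn H hH1 hH.symm hPc U hU hUc M p hp.one_lt.le s hs i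
    rw [← hCa] at h1
    refine h1.trans ?_
    have h2 : Ca * p * H ≤ Ca * 2 ^ (k0 + 1) * H ^ (1 + ε) := by
      rw [Real.rpow_add hHpos, Real.rpow_one]
      calc Ca * p * H ≤ Ca * (2 ^ (k0 + 1) * H ^ ε) * H := by
            apply mul_le_mul_of_nonneg_right _ hHpos.le
            exact mul_le_mul_of_nonneg_left hple (by linarith)
        _ = _ := by ring
    refine h2.trans ?_
    apply mul_le_mul_of_nonneg_right _ (Real.rpow_nonneg hHpos.le _)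
    have h3 : (0 : ℝ) ≤ (‖ζ‖ + 3 * n) ^ n := by positivity
    have h4 : (0 : ℝ) ≤ 2 ^ (k0 + 1) * M * Cp := by positivity
    linarith
  · have h1 := member_value n hn ζ R P _ _ hRv hPv U hU hUc M p s hs
    refine h1.trans ?_
    have h3 : (p : ℝ) * M * (Cp * H ^ (-v)) ≤
        2 ^ (k0 + 1) * M * Cp * H ^ (-(v - ε)) := by
      have e1 : (p : ℝ) * M * (Cp * H ^ (-v)) ≤ (2 ^ (k0 + 1) * H ^ ε) * M * (Cp * H ^ (-v)) := by
        apply mul_le_mul_of_nonneg_right _ (by positivity)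
        exact mul_le_mul_of_nonneg_right hple (Nat.cast_nonneg _)
      have e2 : H ^ ε * H ^ (-v) = H ^ (-(v - ε)) := by
        rw [← Real.rpow_add hHpos]
        congr 1; ring
      have e3 : (2 ^ (k0 + 1) * H ^ ε) * M * (Cp * H ^ (-v)) =
          2 ^ (k0 + 1) * M * Cp * H ^ (-(v - ε)) := by
        rw [← e2]; ring
      rw [e3] at e1
      exact e1
    have h4 : (0 : ℝ) ≤ Ca * 2 ^ (k0 + 1) * H ^ (-(v - ε)) := by positivity
    calc (‖ζ‖ + 3 * n) ^ n * H ^ (-(v - ε)) + (p : ℝ) * M * (Cp * H ^ (-v))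
        ≤ (‖ζ‖ + 3 * n) ^ n * H ^ (-(v - ε)) +
          2 ^ (k0 + 1) * M * Cp * H ^ (-(v - ε)) := by linarith
      _ ≤ _ := by
        rw [add_mul, add_mul]; linarith

end Pool.Agent.Y882.DE
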