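import Mathlib
import Pool.Agent.Y882.DE.Step

open Polynomial

namespace Pool.Agent.Y882.DE

open Pool.Agent.H961R3.C (Mm)

/-- The naive height of an integer polynomial: the maximum of the absolute values of its
coefficients. -/
def naiveHeight (P : ℤ[X]) : ℕ := P.support.sup fun i => (P.coeff i).natAbs

/-- For all sufficiently large real `X` there is an integer polynomial `P` of degree at most `n`
with `H(P) ≤ X` and `0 < ‖P(ζ)‖ ≤ X^(-w)`. -/
def UniformlySolvable {K : Type*} [NormedField K] (n : ℕ) (ζ : K) (w : ℝ) : Prop :=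
  ∃ X₀ : ℝ, ∀ X : ℝ, X₀ ≤ X → 1 ≤ X → ∃ P : ℤ[X], P.natDegree ≤ n ∧
    (naiveHeight P : ℝ) ≤ X ∧ 0 < ‖aeval ζ P‖ ∧ ‖aeval ζ P‖ ≤ X ^ (-w)

/-- For arbitrarily large real `X ≥ 1` there is an irreducible integer polynomial `P` of degree
exactly `n` with `H(P) ≤ X` and `0 < ‖P(ζ)‖ ≤ X^(-w)`. -/
def SolvableInExactDegree {K : Type*} [NormedField K] (n : ℕ) (ζ : K) (w : ℝ) : Prop :=
  ∀ X₀ : ℝ, ∃ X : ℝ, X₀ ≤ X ∧ 1 ≤ X ∧ ∃ P : ℤ[X], P.natDegree = n ∧ Irreducible P ∧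
    (naiveHeight P : ℝ) ≤ X ∧ 0 < ‖aeval ζ P‖ ∧ ‖aeval ζ P‖ ≤ X ^ (-w)

/-- The uniform exponent `ŵ_n(ζ)`, as an extended real number. -/
noncomputable def wHat {K : Type*} [NormedField K] (n : ℕ) (ζ : K) : EReal :=
  sSup {w : EReal | ∃ r : ℝ, w = (r : EReal) ∧ UniformlySolvable n ζ r}

/-- The exponent `w_{=n}(ζ)`, as an extended real number. -/
noncomputable def wExact {K : Type*} [NormedField K] (n : ℕ) (ζ : K) : EReal :=
  sSup {w : EReal | ∃ r : ℝ, w = (r : EReal) ∧ SolvableInExactDegree n ζ r}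

lemma naiveHeight_le (P : ℤ[X]) (X : ℝ) (hX : 0 ≤ X) (h : ∀ i, |(P.coeff i : ℝ)| ≤ X) :
    (naiveHeight P : ℝ) ≤ X := by
  have h1 : naiveHeight P ≤ ⌊X⌋₊ := by
    unfold naiveHeight
    apply Finset.sup_le
    intro i _
    rw [Nat.le_floor_iff hX]
    have h2 := h i
    have h3 : (((P.coeff i).natAbs : ℕ) : ℝ) = |(P.coeff i : ℝ)| := by
      rw [Nat.cast_natAbs]; push_cast; rfl
    rw [h3]; exact h2
  have h4 : (naiveHeight P : ℝ) ≤ (⌊X⌋₊ : ℝ) := by exact_mod_cast h1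
  exact h4.trans (Nat.floor_le hX)

lemma coeff_le_naiveHeight (P : ℤ[X]) (i : ℕ) : |(P.coeff i : ℝ)| ≤ naiveHeight P := by
  have h3 : (((P.coeff i).natAbs : ℕ) : ℝ) = |(P.coeff i : ℝ)| := by
    rw [Nat.cast_natAbs]; push_cast; rfl
  rw [← h3]
  by_cases hi : i ∈ P.support
  · have := Finset.le_sup (f := fun i => (P.coeff i).natAbs) hi
    exact_mod_cast this
  · rw [notMem_support_iff.1 hi]; simp

lemma irreducible_primPart (n : ℕ) (hn : 1 ≤ n) (F : ℤ[X]) (hF : F.natDegree = n)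
    (hirr : ∀ A A' : ℤ[X], A * A' = F → A.natDegree = 0 ∨ A'.natDegree = 0) :
    Irreducible F.primPart := by
  have hdeg : F.primPart.natDegree = n := by rw [natDegree_primPart, hF]
  have hprim := isPrimitive_primPart F
  have hconst : ∀ a b : ℤ[X], F.primPart = a * b → a.natDegree = 0 → IsUnit a := by
    intro a b hab ha
    rw [natDegree_eq_zero] at ha
    obtain ⟨k, rfl⟩ := ha
    exact (hprim k ⟨b, hab⟩).map C
  constructor
  · intro hu
    have := natDegree_eq_zero_of_isUnit hu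
    omega
  · intro a b hab
    have hF' : (C F.content * a) * b = F := by
      rw [mul_assoc, ← hab]
      exact (eq_C_content_mul_primPart F).symm
    rcases hirr _ _ hF' with h | h
    · left
      apply hconst a b hab
      have hc : F.content ≠ 0 := by
        intro h0
        rw [content_eq_zero_iff] at h0
        rw [h0, natDegree_zero] at hF; omega
      rwa [natDegree_C_mul hc] at h
    · right
      exact hconst b a (by rw [hab, mul_comm]) h

variable {K : Type*} [NormedField K]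

/-- value of the primitive part -/
lemma prim_val (ζ : K) (F : ℤ[X]) : aeval ζ F = (F.content : K) * aeval ζ F.primPart := by
  conv_lhs => rw [eq_C_content_mul_primPart F]
  rw [map_mul, aeval_C]
  simp

theorem main_gen (n : ℕ) (hn : 1 ≤ n) (ζ : K) (hζ : Transcendental ℤ ζ) (κ : ℝ)
    (hK : ∀ k : ℤ, k ≠ 0 → 1 ≤ ‖(k : K)‖ * |(k : ℝ)| ^ κ) (hκ0 : 0 ≤ κ) (v : ℝ) (hU : Uni n ζ v)
    (hκv : κ < v) (w : ℝ) (hw0 : κ ≤ w) (hw : w < v) : SolvableInExactDegree n ζ w := by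
  have hnR : (1 : ℝ) ≤ n := by exact_mod_cast hn
  have hw00 : 0 ≤ w := hκ0.trans hw0
  obtain ⟨ε, hε, hε0, hε2⟩ : ∃ ε : ℝ, 0 < ε ∧ ε ≤ v - κ ∧ ε * (2 + w) ≤ (v - w) / 4 := by
    refine ⟨min (v - κ) ((v - w) / (4 * (2 + w))), ?_, min_le_left _ _, ?_⟩
    · apply lt_min (by linarith)
      apply div_pos <;> linarith
    · have h1 : min (v - κ) ((v - w) / (4 * (2 + w))) ≤ (v - w) / (4 * (2 + w)) :=
        min_le_right _ _
      calc min (v - κ) ((v - w) / (4 * (2 + w))) * (2 + w)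
          ≤ (v - w) / (4 * (2 + w)) * (2 + w) := mul_le_mul_of_nonneg_right h1 (by linarith)
        _ = (v - w) / 4 := by
          have : (2 + w) ≠ 0 := by linarith
          field_simp
  have hvε : 0 < v - ε := by nlinarith
  obtain ⟨C0, hC0, hstep⟩ := step n hn ζ hζ κ hK v hU ε hε hvε (by linarith)
  intro X₀'
  obtain ⟨X₀, hX₀⟩ : ∃ X₀ : ℝ, X₀ = max X₀' 1 := ⟨_, rfl⟩
  have hX₀1 : 1 ≤ X₀ := by rw [hX₀]; exact le_max_right _ _
  have hX₀2 : X₀' ≤ X₀ := by rw [hX₀]; exact le_max_left _ _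
  set e : ℝ := (v - w) / 4 with he
  have he0 : 0 < e := by rw [he]; linarith
  obtain ⟨K1, hK1⟩ : ∃ K1 : ℝ, ∀ H : ℝ, K1 ≤ H → C0 ^ (1 + w) ≤ H ^ e ∧ X₀ ^ w ≤ H ^ e := by
    have h1 := (tendsto_rpow_atTop he0).eventually_ge_atTop (C0 ^ (1 + w))
    have h2 := (tendsto_rpow_atTop he0).eventually_ge_atTop (X₀ ^ w)
    exact Filter.eventually_atTop.1 (h1.and h2)
  obtain ⟨H, hHK, hH1, F, hFd, hFirr, hFc, hFv⟩ := hstep K1
  obtain ⟨hHK1, hHK2⟩ := hK1 H hHK
  have hHpos : 0 < H := by linarith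
  have hC0pos : 0 < C0 := by linarith
  set X : ℝ := C0 * H ^ (1 + ε) with hX
  have hHle : H ≤ X := by
    have h1 : H ^ (1 : ℝ) ≤ H ^ (1 + ε) := Real.rpow_le_rpow_of_exponent_le hH1 (by linarith)
    rw [Real.rpow_one] at h1
    have h2 : 0 ≤ H ^ (1 + ε) := Real.rpow_nonneg hHpos.le _
    rw [hX]; nlinarith
  have hXpos : 0 < X := by linarith
  have hX1 : 1 ≤ X := hH1.trans hHle
  have hF0 : F ≠ 0 := by
    rintro rfl
    rw [natDegree_zero] at hFd; omega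
  have hc0 : F.content ≠ 0 := by
    intro h0
    rw [content_eq_zero_iff] at h0; exact hF0 h0
  obtain ⟨c, hc⟩ : ∃ c : ℝ, c = |(F.content : ℝ)| := ⟨_, rfl⟩
  have hc1 : (1 : ℝ) ≤ c := by
    rw [hc]; exact_mod_cast Int.one_le_abs hc0
  have hcpos : 0 < c := by linarith
  have hirr := irreducible_primPart n hn F hFd hFirr
  have hFe := eq_C_content_mul_primPart F
  have hcoef : ∀ i, |(F.primPart.coeff i : ℝ)| ≤ X / c := by
    intro i
    rw [le_div_iff₀ hcpos]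
    refine le_trans (le_of_eq ?_) (hFc i)
    have h1 : F.coeff i = F.content * F.primPart.coeff i := by
      conv_lhs => rw [hFe]
      rw [coeff_C_mul]
    rw [h1, hc]
    push_cast
    rw [abs_mul]; ring
  have hcX : c ≤ X := by
    have h1 := hcoef n
    have h2 : F.primPart.coeff n ≠ 0 := by
      have h3 : F.primPart.natDegree = n := by rw [natDegree_primPart, hFd]
      rw [← h3]
      exact leadingCoeff_ne_zero.2 hirr.ne_zero
    have h3 : (1 : ℝ) ≤ |(F.primPart.coeff n : ℝ)| := by exact_mod_cast Int.one_le_abs h2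
    have h4 : 1 ≤ X / c := h3.trans h1
    rwa [le_div_iff₀ hcpos, one_mul] at h4
  -- the value of the primitive part
  have hval : ‖aeval ζ F.primPart‖ ≤ ‖aeval ζ F‖ * c ^ κ := by
    rw [prim_val ζ F, norm_mul]
    have h1 := hK F.content hc0
    rw [← hc] at h1
    have h2 := norm_nonneg (aeval ζ F.primPart)
    nlinarith
  -- the value of `F`
  have hFval : ‖aeval ζ F‖ ≤ X ^ (-w) * H ^ (-(2 * e)) := by
    refine hFv.trans ?_
    have h1 : X ^ (-w) = C0 ^ (-w) * H ^ (-(w * (1 + ε))) := by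
      rw [hX, Real.mul_rpow hC0pos.le (Real.rpow_nonneg hHpos.le _), ← Real.rpow_mul hHpos.le]
      congr 2; ring
    rw [h1]
    have h2 : C0 = C0 ^ (-w) * C0 ^ (1 + w) := by
      rw [← Real.rpow_add hC0pos]
      have : -w + (1 + w) = 1 := by ring
      rw [this, Real.rpow_one]
    have h3 : C0 ≤ C0 ^ (-w) * H ^ e := by
      calc C0 = C0 ^ (-w) * C0 ^ (1 + w) := h2
        _ ≤ C0 ^ (-w) * H ^ e := mul_le_mul_of_nonneg_left hHK1 (Real.rpow_nonneg hC0pos.le _)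
    calc C0 * H ^ (-(v - ε)) ≤ (C0 ^ (-w) * H ^ e) * H ^ (-(v - ε)) :=
          mul_le_mul_of_nonneg_right h3 (Real.rpow_nonneg hHpos.le _)
      _ = C0 ^ (-w) * H ^ (e + (-(v - ε))) := by
          rw [mul_assoc, ← Real.rpow_add hHpos]
      _ ≤ C0 ^ (-w) * H ^ (-(w * (1 + ε)) + (-(2 * e))) := by
          apply mul_le_mul_of_nonneg_left _ (Real.rpow_nonneg hC0pos.le _)
          apply Real.rpow_le_rpow_of_exponent_le hH1
          have h5 : ε * (2 + w) ≤ e := hε2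
          have h6 : 4 * e = v - w := by rw [he]; ring
          nlinarith
      _ = _ := by rw [Real.rpow_add hHpos]; ring
  have hXw : 0 < X ^ (-w) := Real.rpow_pos_of_pos hXpos _
  have hH2e : 0 < H ^ (-(2 * e)) := Real.rpow_pos_of_pos hHpos _
  have hH2e1 : H ^ (-(2 * e)) ≤ 1 := Real.rpow_le_one_of_one_le_of_nonpos hH1 (by linarith)
  have hpos : 0 < ‖aeval ζ F.primPart‖ := norm_pos_iff.2 (aeval_ne ζ hζ _ hirr.ne_zero)
  have hXc : 0 ≤ X / c := by positivity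
  refine ⟨max X₀ (X / c), hX₀2.trans (le_max_left _ _), hX₀1.trans (le_max_left _ _),
    F.primPart, ?_, hirr, ?_, hpos, ?_⟩
  · rw [natDegree_primPart, hFd]
  · exact (naiveHeight_le _ _ hXc hcoef).trans (le_max_right _ _)
  · rcases le_total X₀ (X / c) with hcase | hcase
    · rw [max_eq_right hcase]
      have h1 : (X / c) ^ (-w) = X ^ (-w) * c ^ w := by
        rw [Real.div_rpow hXpos.le hcpos.le, Real.rpow_neg hcpos.le, div_inv_eq_mul]
      rw [h1]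
      calc ‖aeval ζ F.primPart‖ ≤ ‖aeval ζ F‖ * c ^ κ := hval
        _ ≤ (X ^ (-w) * H ^ (-(2 * e))) * c ^ κ :=
            mul_le_mul_of_nonneg_right hFval (Real.rpow_nonneg hcpos.le _)
        _ ≤ X ^ (-w) * c ^ κ := by
            apply mul_le_mul_of_nonneg_right _ (Real.rpow_nonneg hcpos.le _)
            nlinarith
        _ ≤ X ^ (-w) * c ^ w :=
            mul_le_mul_of_nonneg_left (Real.rpow_le_rpow_of_exponent_le hc1 hw0) hXw.le
    · rw [max_eq_left hcase]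
      have h1 : c ^ κ ≤ X ^ w := by
        calc c ^ κ ≤ c ^ w := Real.rpow_le_rpow_of_exponent_le hc1 hw0
          _ ≤ X ^ w := Real.rpow_le_rpow hcpos.le hcX hw00
      have h2 : X ^ (-w) * X ^ w = 1 := by rw [← Real.rpow_add hXpos]; simp
      have h3 : ‖aeval ζ F.primPart‖ ≤ H ^ (-(2 * e)) := by
        calc ‖aeval ζ F.primPart‖ ≤ ‖aeval ζ F‖ * c ^ κ := hval
          _ ≤ (X ^ (-w) * H ^ (-(2 * e))) * X ^ w :=
              mul_le_mul hFval h1 (Real.rpow_nonneg hcpos.le _) (by positivity)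
          _ = (X ^ (-w) * X ^ w) * H ^ (-(2 * e)) := by ring
          _ = _ := by rw [h2, one_mul]
      refine h3.trans ?_
      have h4 : H ^ (-(2 * e)) ≤ H ^ (-e) :=
        Real.rpow_le_rpow_of_exponent_le hH1 (by linarith)
      refine h4.trans ?_
      have hX₀pos : 0 < X₀ := by linarith
      rw [Real.rpow_neg hHpos.le, Real.rpow_neg hX₀pos.le]
      exact inv_anti₀ (Real.rpow_pos_of_pos hX₀pos _) hHK2

/-- `T^n - 2` is irreducible. -/
lemma irr_two (n : ℕ) (hn : 1 ≤ n) : Irreducible (X ^ n - C 2 : ℤ[X]) := by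
  have hmon : (X ^ n - C 2 : ℤ[X]).Monic := monic_X_pow_sub_C 2 (by omega)
  have hdeg : (X ^ n - C 2 : ℤ[X]).degree = n := degree_X_pow_sub_C (by omega) 2
  have hprime : (Ideal.span {(2 : ℤ)}).IsPrime := by
    rw [Ideal.span_singleton_prime (by norm_num)]; exact Int.prime_two
  refine irreducible_of_eisenstein_criterion (P := Ideal.span {(2 : ℤ)}) hprime ?_ ?_ ?_ ?_
    hmon.isPrimitive
  · rw [hmon.leadingCoeff, Ideal.mem_span_singleton]; norm_num
  · intro i hi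
    rw [hdeg] at hi
    have hi' : i < n := by exact_mod_cast hi
    rw [coeff_sub, coeff_X_pow, if_neg (by omega), coeff_C, Ideal.mem_span_singleton]
    split_ifs <;> norm_num
  · rw [hdeg]; exact_mod_cast hn
  · rw [coeff_sub, coeff_X_pow, if_neg (by omega), coeff_C, if_pos rfl, Ideal.span_singleton_pow,
      Ideal.mem_span_singleton]
    norm_num

/-- negative exponents -/
lemma triv (n : ℕ) (hn : 1 ≤ n) (ζ : K) (hζ : Transcendental ℤ ζ) (w : ℝ) (hw : w < 0) :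
    SolvableInExactDegree n ζ w := by
  intro X₀
  obtain ⟨K1, hK1⟩ := Filter.eventually_atTop.1
    ((tendsto_rpow_atTop (neg_pos.2 hw)).eventually_ge_atTop
      ‖aeval ζ (X ^ n - C 2 : ℤ[X])‖)
  refine ⟨max (max X₀ 2) K1, (le_max_left _ _).trans (le_max_left _ _),
    (by norm_num : (1 : ℝ) ≤ 2).trans ((le_max_right _ _).trans (le_max_left _ _)),
    X ^ n - C 2, natDegree_X_pow_sub_C, irr_two n hn, ?_,
    norm_pos_iff.2 (aeval_ne ζ hζ _ (irr_two n hn).ne_zero), hK1 _ (le_max_right _ _)⟩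
  refine le_trans ?_ ((le_max_right X₀ 2).trans (le_max_left _ _))
  apply naiveHeight_le _ _ (by norm_num)
  intro i
  rw [coeff_sub, coeff_X_pow, coeff_C]
  by_cases h1 : i = n
  · rw [if_pos h1, if_neg (by omega)]; norm_num
  · rw [if_neg h1]
    split_ifs <;> norm_num

/-- `UniformlySolvable` in terms of coefficients -/
lemma uni_of (n : ℕ) (ζ : K) (w : ℝ) (h : UniformlySolvable n ζ w) : Uni n ζ w := by
  obtain ⟨X₀, hX₀⟩ := h
  refine ⟨max X₀ 1, fun X hX => ?_⟩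
  obtain ⟨P, hPd, hPh, hPv0, hPv⟩ := hX₀ X ((le_max_left _ _).trans hX)
    ((le_max_right _ _).trans hX)
  refine ⟨P, ?_, hPd, fun i => (coeff_le_naiveHeight P i).trans hPh, hPv⟩
  rintro rfl
  simp at hPv0

lemma of_uni (n : ℕ) (ζ : K) (hζ : Transcendental ℤ ζ) (w : ℝ) (h : Uni n ζ w) :
    UniformlySolvable n ζ w := by
  obtain ⟨X₀, hX₀⟩ := h
  refine ⟨X₀, fun X hX hX1 => ?_⟩
  obtain ⟨P, hP0, hPd, hPh, hPv⟩ := hX₀ X hX
  exact ⟨P, hPd, naiveHeight_le _ _ (by linarith) hPh,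
    norm_pos_iff.2 (aeval_ne ζ hζ _ hP0), hPv⟩

/-- exponents between `κ` and `ŵ_n` -/
lemma below (n : ℕ) (hn : 1 ≤ n) (ζ : K) (hζ : Transcendental ℤ ζ) (κ : ℝ)
    (hK : ∀ k : ℤ, k ≠ 0 → 1 ≤ ‖(k : K)‖ * |(k : ℝ)| ^ κ) (hκ0 : 0 ≤ κ) (w : ℝ) (hw0 : κ ≤ w)
    (hw : (w : EReal) < wHat n ζ) : SolvableInExactDegree n ζ w := by
  obtain ⟨u, ⟨v, rfl, hv⟩, hwv⟩ := lt_sSup_iff.1 hw
  have hwv' : w < v := by exact_mod_cast hwv
  exact main_gen n hn ζ hζ κ hK hκ0 v (uni_of n ζ v hv) (by linarith) w hw0 hwv'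

/-- archimedean case -/
theorem arch (n : ℕ) (hn : 1 ≤ n) (ζ : K) (hζ : Transcendental ℤ ζ)
    (hK : ∀ k : ℤ, k ≠ 0 → 1 ≤ ‖(k : K)‖) : wHat n ζ ≤ wExact n ζ := by
  by_contra hlt
  push Not at hlt
  obtain ⟨r, hr1, hr2⟩ := EReal.lt_iff_exists_real_btwn.1 hlt
  have h1 : SolvableInExactDegree n ζ r := by
    rcases lt_or_ge r 0 with h0 | h0
    · exact triv n hn ζ hζ r h0
    · exact below n hn ζ hζ 0 (fun k hk => by rw [Real.rpow_zero, mul_one]; exact hK k hk)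
        le_rfl r h0 hr2
  have h3 : (r : EReal) ≤ wExact n ζ := le_sSup ⟨r, rfl, h1⟩
  exact absurd (lt_of_lt_of_le hr1 h3) (lt_irrefl _)

/-- nonarchimedean case -/
theorem nonarch (n : ℕ) (hn : 1 ≤ n) (ζ : K) (hζ : Transcendental ℤ ζ)
    (hK : ∀ k : ℤ, k ≠ 0 → 1 ≤ ‖(k : K)‖ * |(k : ℝ)| ^ (1 : ℝ)) (h1 : (1 : EReal) < wHat n ζ) :
    wHat n ζ ≤ wExact n ζ := by
  by_contra hlt
  push Not at hlt
  obtain ⟨r, hr1, hr2⟩ := EReal.lt_iff_exists_real_btwn.1 hlt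
  have h2 : SolvableInExactDegree n ζ (max r 1) := by
    apply below n hn ζ hζ 1 hK zero_le_one (max r 1) (le_max_right _ _)
    rcases le_total r 1 with h | h
    · rw [max_eq_right h]; exact_mod_cast h1
    · rw [max_eq_left h]; exact hr2
  have h3 : ((max r 1 : ℝ) : EReal) ≤ wExact n ζ := le_sSup ⟨_, rfl, h2⟩
  have h4 : (r : EReal) ≤ ((max r 1 : ℝ) : EReal) := by exact_mod_cast le_max_left _ _
  exact absurd (lt_of_lt_of_le hr1 (h4.trans h3)) (lt_irrefl _)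

/-- lower bounds for the uniform exponent -/
lemma le_wHat (n : ℕ) (ζ : K) (hζ : Transcendental ℤ ζ) (a : ℝ)
    (h : ∀ v : ℝ, v < a → Uni n ζ v) : (a : EReal) ≤ wHat n ζ := by
  by_contra hlt
  push Not at hlt
  obtain ⟨r, hr1, hr2⟩ := EReal.lt_iff_exists_real_btwn.1 hlt
  have h1 : r < a := by exact_mod_cast hr2
  have h3 : (r : EReal) ≤ wHat n ζ := le_sSup ⟨r, rfl, of_uni n ζ hζ r (h r h1)⟩
  exact absurd (lt_of_lt_of_le hr1 h3) (lt_irrefl _)

/-- Dirichlet's theorem for a real number -/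
lemma uni_real (n : ℕ) (hn : 1 ≤ n) (ζ v : ℝ) (hv : v < n) : Uni n ζ v := by
  obtain ⟨C1, hC1, hD⟩ := Pool.Agent.H961R3.C.dirichlet n hn ζ
  have hδ : 0 < (n : ℝ) - v := by linarith
  obtain ⟨T, hT⟩ := Filter.eventually_atTop.1
    ((tendsto_rpow_atTop hδ).eventually_ge_atTop (C1 * 2 ^ n))
  refine ⟨max 1 T, ?_⟩
  intro X hX
  have hX1 : 1 ≤ X := (le_max_left _ _).trans hX
  have hXT : T ≤ X := (le_max_right _ _).trans hX
  have hXpos : 0 < X := by linarith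
  obtain ⟨Y, hY⟩ : ∃ Y : ℕ, Y = ⌊X⌋₊ := ⟨_, rfl⟩
  have hYX : (Y : ℝ) ≤ X := by rw [hY]; exact Nat.floor_le (by linarith)
  have hXY : X < Y + 1 := by rw [hY]; exact Nat.lt_floor_add_one X
  have hY1 : 1 ≤ Y := by rw [hY]; exact (Nat.one_le_floor_iff X).2 hX1
  have hY1R : (1 : ℝ) ≤ Y := by exact_mod_cast hY1
  obtain ⟨P, hP0, hPd, hPc, hPv⟩ := hD Y hY1
  refine ⟨P, hP0, hPd, fun i => (hPc i).trans hYX, ?_⟩
  rw [Real.norm_eq_abs]
  refine hPv.trans ?_
  have hYpos : (0 : ℝ) < (Y : ℝ) ^ n := by positivity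
  rw [div_le_iff₀ hYpos]
  have h1 : X ^ n ≤ 2 ^ n * (Y : ℝ) ^ n := by
    rw [← mul_pow]
    exact pow_le_pow_left₀ hXpos.le (by linarith) n
  have h2 : X ^ (-v) * X ^ n = X ^ ((n : ℝ) - v) := by
    rw [← Real.rpow_natCast X n, ← Real.rpow_add hXpos]; congr 1; ring
  have h3 : 0 < X ^ (-v) := Real.rpow_pos_of_pos hXpos _
  have h4 := hT X hXT
  have h5 : C1 * 2 ^ n ≤ X ^ (-v) * (Y : ℝ) ^ n * 2 ^ n := by
    calc C1 * 2 ^ n ≤ X ^ ((n : ℝ) - v) := h4
      _ = X ^ (-v) * X ^ n := h2.symm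
      _ ≤ X ^ (-v) * (2 ^ n * (Y : ℝ) ^ n) := mul_le_mul_of_nonneg_left h1 h3.le
      _ = _ := by ring
  exact le_of_mul_le_mul_right h5 (by positivity)

end Pool.Agent.Y882.DE
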