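import Mathlib
import Pool.Agent.Y882.DE.Gen

open Polynomial

namespace Pool.Agent.Y882.DE

variable (p : ℕ) [hp : Fact p.Prime]

/-- a nonzero integer `k` has `p`-adic norm at least `1 / |k|` -/
lemma padic_norm_int (k : ℤ) (hk : k ≠ 0) : 1 ≤ ‖(k : ℚ_[p])‖ * |(k : ℝ)| ^ (1 : ℝ) := by
  rw [Real.rpow_one]
  have hk' : (k : ℚ_[p]) ≠ 0 := by exact_mod_cast hk
  have hp0 : (0 : ℝ) < p := by exact_mod_cast hp.out.pos
  have h1 := Padic.norm_eq_zpow_neg_valuation hk'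
  rw [Padic.valuation_intCast] at h1
  have h2 : ((p : ℤ) ^ (padicValInt p k)) ∣ k := padicValInt_dvd k
  have h3 : ((p : ℤ) ^ (padicValInt p k)) ≤ |k| :=
    Int.le_of_dvd (abs_pos.2 hk) ((dvd_abs _ _).2 h2)
  have h4 : ((p : ℝ) ^ (padicValInt p k)) ≤ |(k : ℝ)| := by exact_mod_cast h3
  rw [h1, zpow_neg, zpow_natCast]
  have h5 : (0 : ℝ) < (p : ℝ) ^ (padicValInt p k) := by positivity
  rw [inv_mul_eq_div, le_div_iff₀ h5, one_mul]
  exact h4

/-- Dirichlet's theorem for a `p`-adic number -/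
theorem uni_padic (n : ℕ) (ζ : ℚ_[p]) (v : ℝ) (hv : v < n + 1) :
    Uni n ζ v := by
  have hp1 : 1 < p := hp.out.one_lt
  have hpR : (1 : ℝ) < p := by exact_mod_cast hp1
  have hp0 : (0 : ℝ) < p := by linarith
  -- the denominator
  obtain ⟨a, ha⟩ : ∃ a : ℕ, (max 1 ‖ζ‖) ^ n ≤ (p : ℝ) ^ a := by
    obtain ⟨a, ha⟩ := pow_unbounded_of_one_lt ((max 1 ‖ζ‖) ^ n) hpR
    exact ⟨a, ha.le⟩
  have hz : ∀ i : Fin (n + 1), ‖(p : ℚ_[p]) ^ a * ζ ^ (i : ℕ)‖ ≤ 1 := by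
    intro i
    rw [norm_mul, norm_pow, norm_pow, Padic.norm_p, inv_pow]
    have h1 : ‖ζ‖ ^ (i : ℕ) ≤ (p : ℝ) ^ a := by
      calc ‖ζ‖ ^ (i : ℕ) ≤ (max 1 ‖ζ‖) ^ (i : ℕ) :=
            pow_le_pow_left₀ (norm_nonneg _) (le_max_right _ _) _
        _ ≤ (max 1 ‖ζ‖) ^ n := pow_le_pow_right₀ (le_max_left _ _) (by omega)
        _ ≤ _ := ha
    have h2 : (0 : ℝ) < (p : ℝ) ^ a := by positivity
    rw [inv_mul_eq_div, div_le_one h2]
    exact h1
  set z : Fin (n + 1) → ℤ_[p] := fun i => ⟨(p : ℚ_[p]) ^ a * ζ ^ (i : ℕ), hz i⟩ with hzdef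
  -- the threshold
  have hδ : 0 < (n : ℝ) + 1 - v := by linarith
  obtain ⟨T, hT⟩ := Filter.eventually_atTop.1
    ((tendsto_rpow_atTop hδ).eventually_ge_atTop ((p : ℝ) ^ (a + 1)))
  refine ⟨max 1 T, ?_⟩
  intro X hX
  have hX1 : 1 ≤ X := (le_max_left _ _).trans hX
  have hXT : T ≤ X := (le_max_right _ _).trans hX
  have hXpos : 0 < X := by linarith
  obtain ⟨Y, hY⟩ : ∃ Y : ℕ, Y = ⌊X⌋₊ := ⟨_, rfl⟩
  have hYX : (Y : ℝ) ≤ X := by rw [hY]; exact Nat.floor_le (by linarith)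
  have hXY : X < Y + 1 := by rw [hY]; exact Nat.lt_floor_add_one X
  have hY1 : 1 ≤ Y := by rw [hY]; exact (Nat.one_le_floor_iff X).2 hX1
  set N : ℕ := (Y + 1) ^ (n + 1) with hN
  have hN1 : 1 < N := Nat.one_lt_pow (by omega) (by omega)
  obtain ⟨k, hk⟩ : ∃ k : ℕ, k = (Nat.clog p N).pred := ⟨_, rfl⟩
  have hklt : p ^ k < N := by rw [hk]; exact Nat.pow_pred_clog_lt_self hp1 hN1
  have hNle : N ≤ p ^ (k + 1) := by
    have h1 : 0 < Nat.clog p N := Nat.clog_pos hp1 (by omega)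
    have h2 : k + 1 = Nat.clog p N := by rw [hk]; exact Nat.succ_pred_eq_of_pos h1
    rw [h2]; exact Nat.le_pow_clog hp1 N
  have : NeZero (p ^ k) := ⟨(pow_pos hp.out.pos k).ne'⟩
  obtain ⟨c, -, c', -, hne, hfl⟩ := Finset.exists_ne_map_eq_of_card_lt_of_maps_to
    (s := (Finset.univ : Finset (Fin (n + 1) → Fin (Y + 1))))
    (t := (Finset.univ : Finset (ZMod (p ^ k))))
    (f := fun c => PadicInt.toZModPow k (∑ i, (((c i : ℕ) : ℕ) : ℤ_[p]) * z i))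
    (by
      rw [Finset.card_univ, Finset.card_univ, Fintype.card_fun, Fintype.card_fin,
        Fintype.card_fin, ZMod.card]
      exact hklt)
    (by intro c _; simp)
  set D : Fin (n + 1) → ℤ := fun i => ((c i : ℕ) : ℤ) - ((c' i : ℕ) : ℤ) with hD
  have hnorm : ‖∑ i, (D i : ℤ_[p]) * z i‖ ≤ (p : ℝ) ^ (-(k : ℤ)) := by
    rw [PadicInt.norm_le_pow_iff_mem_span_pow, ← PadicInt.ker_toZModPow, RingHom.mem_ker]
    have h1 : ∑ i, (D i : ℤ_[p]) * z i =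
        (∑ i, (((c i : ℕ) : ℕ) : ℤ_[p]) * z i) - ∑ i, (((c' i : ℕ) : ℕ) : ℤ_[p]) * z i := by
      rw [← Finset.sum_sub_distrib]
      apply Finset.sum_congr rfl
      intro i _
      simp only [hD]
      push_cast; ring
    rw [h1, map_sub, sub_eq_zero]
    exact hfl
  set P : ℤ[X] := ∑ i : Fin (n + 1), monomial (i : ℕ) (D i) with hP
  have hcoeff : ∀ k, P.coeff k = if hk : k < n + 1 then D ⟨k, hk⟩ else 0 := by
    intro k
    rw [hP, finsetSum_coeff]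
    simp only [coeff_monomial]
    split_ifs with hk
    · rw [Finset.sum_eq_single (⟨k, hk⟩ : Fin (n + 1))]
      · simp
      · intro b _ hb
        rw [if_neg]
        intro h; apply hb; exact Fin.ext h
      · intro h; exact absurd (Finset.mem_univ _) h
    · apply Finset.sum_eq_zero
      intro i _
      rw [if_neg]
      have := i.2; omega
  refine ⟨P, ?_, ?_, ?_, ?_⟩
  · intro h0
    apply hne
    funext i
    have h1 := hcoeff i
    rw [h0, coeff_zero, dif_pos i.2] at h1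
    simp only [hD] at h1
    apply Fin.ext
    have : ((c i : ℕ) : ℤ) = ((c' i : ℕ) : ℤ) := by
      have e : (⟨(i : ℕ), i.2⟩ : Fin (n + 1)) = i := rfl
      rw [e] at h1; linarith
    exact_mod_cast this
  · rw [natDegree_le_iff_coeff_eq_zero]
    intro k hk
    rw [hcoeff, dif_neg (by omega)]
  · intro k
    refine le_trans ?_ hYX
    rw [hcoeff]
    split_ifs with hk
    · simp only [hD]
      push_cast
      have e1 : (((c ⟨k, hk⟩ : ℕ)) : ℝ) ≤ Y := by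
        have : (c ⟨k, hk⟩ : ℕ) ≤ Y := by omega
        exact_mod_cast this
      have e2 : (((c' ⟨k, hk⟩ : ℕ)) : ℝ) ≤ Y := by
        have : (c' ⟨k, hk⟩ : ℕ) ≤ Y := by omega
        exact_mod_cast this
      have e3 : (0 : ℝ) ≤ ((c ⟨k, hk⟩ : ℕ)) := Nat.cast_nonneg _
      have e4 : (0 : ℝ) ≤ ((c' ⟨k, hk⟩ : ℕ)) := Nat.cast_nonneg _
      rw [abs_le]; constructor <;> linarith
    · simp
  · have h1 : (p : ℚ_[p]) ^ a * aeval ζ P = ((∑ i, (D i : ℤ_[p]) * z i : ℤ_[p]) : ℚ_[p]) := by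
      rw [hP, map_sum]
      simp only [aeval_monomial]
      rw [Finset.mul_sum]
      have e0 : ((∑ i, (D i : ℤ_[p]) * z i : ℤ_[p]) : ℚ_[p]) =
          ∑ i, (((D i : ℤ_[p]) * z i : ℤ_[p]) : ℚ_[p]) :=
        map_sum (PadicInt.Coe.ringHom : ℤ_[p] →+* ℚ_[p]) _ _
      rw [e0]
      apply Finset.sum_congr rfl
      intro i _
      simp only [hzdef, algebraMap_int_eq, Int.coe_castRingHom]
      push_cast
      ring
    have h2 : ‖(p : ℚ_[p]) ^ a * aeval ζ P‖ ≤ (p : ℝ) ^ (-(k : ℤ)) := by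
      rw [h1]; exact hnorm
    rw [norm_mul, norm_pow, Padic.norm_p, inv_pow] at h2
    have hpa : (0 : ℝ) < (p : ℝ) ^ a := by positivity
    rw [inv_mul_eq_div, div_le_iff₀ hpa, zpow_neg, zpow_natCast] at h2
    have h3 : X ^ ((n : ℝ) + 1) ≤ (p : ℝ) ^ (k + 1) := by
      have e1 : X ^ ((n : ℝ) + 1) = X ^ (n + 1) := by
        rw [← Real.rpow_natCast X (n + 1)]; push_cast; rfl
      rw [e1]
      calc X ^ (n + 1) ≤ ((Y : ℝ) + 1) ^ (n + 1) := pow_le_pow_left₀ hXpos.le hXY.le _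
        _ = ((N : ℕ) : ℝ) := by rw [hN]; push_cast; rfl
        _ ≤ ((p ^ (k + 1) : ℕ) : ℝ) := by exact_mod_cast hNle
        _ = _ := by push_cast; rfl
    have h4 : (p : ℝ) ^ (a + 1) ≤ X ^ ((n : ℝ) + 1 - v) := hT X hXT
    refine h2.trans ?_
    have h5 : (0 : ℝ) < (p : ℝ) ^ k := by positivity
    rw [inv_mul_eq_div, div_le_iff₀ h5]
    have h6 : X ^ (-v) * X ^ ((n : ℝ) + 1) = X ^ ((n : ℝ) + 1 - v) := by
      rw [← Real.rpow_add hXpos]; congr 1; ring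
    have h7 : 0 < X ^ (-v) := Real.rpow_pos_of_pos hXpos _
    have h8 : (p : ℝ) ^ a * p ≤ X ^ (-v) * (p : ℝ) ^ k * p := by
      calc (p : ℝ) ^ a * p = (p : ℝ) ^ (a + 1) := (pow_succ _ _).symm
        _ ≤ X ^ ((n : ℝ) + 1 - v) := h4
        _ = X ^ (-v) * X ^ ((n : ℝ) + 1) := h6.symm
        _ ≤ X ^ (-v) * (p : ℝ) ^ (k + 1) := mul_le_mul_of_nonneg_left h3 h7.le
        _ = _ := by rw [pow_succ]; ring
    exact le_of_mul_le_mul_right h8 hp0

end Pool.Agent.Y882.DE
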